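import Pool.Agent.helper83.LS.Spec

set_option autoImplicit false

namespace LSH

lemma U3e_on_true {a b z : Pt} : (⟨a, b, true⟩ : Edge).on z ↔
    ((z.2 = a.2 ∧ z.1 ∈ Set.uIcc a.1 b.1) ∨ (z.1 = b.1 ∧ z.2 ∈ Set.uIcc a.2 b.2)) := by
  simp [Edge.on]

lemma U3e_on_false {a b z : Pt} : (⟨a, b, false⟩ : Edge).on z ↔
    ((z.1 = a.1 ∧ z.2 ∈ Set.uIcc a.2 b.2) ∨ (z.2 = b.2 ∧ z.1 ∈ Set.uIcc a.1 b.1)) := by
  simp [Edge.on]

lemma U3e_btw {x a b lo hi : ℝ} (h : x ∈ Set.uIcc a b) (ha : lo < a ∧ a < hi)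
    (hb : lo < b ∧ b < hi) : lo < x ∧ x < hi := by
  rw [Set.mem_uIcc] at h
  rcases h with h | h <;> constructor <;> linarith [h.1, h.2, ha.1, ha.2, hb.1, hb.2]

lemma U3e_box (hOB : OB_stmt) (hEE : EE_stmt) {d : PT} {R : Finset Pt} (hd : d.pts = R.val)
    {e : Edge} (he : e ∈ d.edges) {z : Pt} (hz : e.on z) {x1 x2 y1 y2 : ℝ}
    (hR : ∀ s ∈ R, (x1 < s.1 ∧ s.1 < x2) ∧ (y1 < s.2 ∧ s.2 < y2)) :
    (x1 < z.1 ∧ z.1 < x2) ∧ (y1 < z.2 ∧ z.2 < y2) := by
  have h1 := hEE.1 d e he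
  rw [hd] at h1
  have ha := hR _ (Finset.mem_val.mp h1.1)
  have hb := hR _ (Finset.mem_val.mp h1.2)
  have h2 := hOB.1 e z hz
  exact ⟨U3e_btw h2.1 ha.1 hb.1, U3e_btw h2.2 ha.2 hb.2⟩

theorem U3e (hFA : FA_stmt) (hOB : OB_stmt) (hEE : EE_stmt) (hAU : AU_stmt) : U3e_stmt := by
  intro t hL S p M N T g hS hG hp hM hMlow hMp hN hNr hT hTt hMN hMT hNT hg hgM hgN hgT hgt hgl
  have hGS : ∀ a ∈ S, ∀ b ∈ S, a ≠ b → a.1 ≠ b.1 ∧ a.2 ≠ b.2 := fun a ha b hb hab =>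
    hG a (Set.mem_insert_of_mem _ ha) b (Set.mem_insert_of_mem _ hb) hab
  have hM' : ∀ s ∈ S, s ≠ M → M.2 < s.2 := fun s hs hne =>
    lt_of_le_of_ne (hMlow s hs) (fun h => (hGS M hM s hs (Ne.symm hne)).2 h)
  have hN' : ∀ s ∈ S, s ≠ N → s.1 < N.1 := fun s hs hne =>
    lt_of_le_of_ne (hNr s hs) (fun h => (hGS s hs N hN hne).1 h)
  have hT' : ∀ s ∈ S, s ≠ T → s.2 < T.2 := fun s hs hne =>
    lt_of_le_of_ne (hTt s hs) (fun h => (hGS s hs T hT hne).2 h)
  set R : Finset Pt := ((S.erase M).erase N).erase T with hRdef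
  have hmem : ∀ s, s ∈ R ↔ s ≠ T ∧ s ≠ N ∧ s ≠ M ∧ s ∈ S := by
    intro s; simp [hRdef, Finset.mem_erase]
  have hRcard : R.card = t.size := by
    have h1 : (S.erase M).card = S.card - 1 := Finset.card_erase_of_mem hM
    have h2 : ((S.erase M).erase N).card = (S.erase M).card - 1 :=
      Finset.card_erase_of_mem (Finset.mem_erase.mpr ⟨hMN.symm, hN⟩)
    have h3 : R.card = ((S.erase M).erase N).card - 1 :=
      Finset.card_erase_of_mem
        (Finset.mem_erase.mpr ⟨hNT.symm, Finset.mem_erase.mpr ⟨hMT.symm, hT⟩⟩)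
    omega
  have hSR : insert M (insert N (insert T R)) = S := by
    ext s
    simp only [Finset.mem_insert, hmem]
    constructor
    · rintro (rfl | rfl | rfl | h)
      · exact hM
      · exact hN
      · exact hT
      · exact h.2.2.2
    · intro hs
      by_cases h1 : s = M
      · exact Or.inl h1
      by_cases h2 : s = N
      · exact Or.inr (Or.inl h2)
      by_cases h3 : s = T
      · exact Or.inr (Or.inr (Or.inl h3))
      exact Or.inr (Or.inr (Or.inr ⟨h3, h2, h1, hs⟩))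
  have hGR : Gen (insert T (R : Set Pt)) := by
    intro a ha b hb hab
    have hsub : ∀ c ∈ (insert T (R : Set Pt)), c ∈ S := by
      intro c hc
      rcases hc with rfl | hc
      · exact hT
      · exact ((hmem c).mp hc).2.2.2
    exact hGS a (hsub a ha) b (hsub b hb) hab
  obtain ⟨d, hd, hdr⟩ := (hFA t hL R T hRcard hGR).2.2.2
    (fun s hs => hT' s ((hmem s).mp hs).2.2.2 ((hmem s).mp hs).1)
  have hdpts : d.pts = R.val := hd.2.1
  have hrootR : d.root ∈ R := by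
    have := hEE.2.1 d
    rw [hdpts] at this
    exact Finset.mem_val.mp this
  have hgR : g ∈ R := (hmem g).mpr ⟨hgT, hgN, hgM, hg⟩
  have hroot : d.root = g := by
    by_contra hne
    have h1 := (hmem _).mp hrootR
    have h2 : d.root.2 ≤ g.2 := hgt _ h1.2.2.2 h1.2.2.1 h1.2.1 h1.1
    have h3 := hdr g hgR
    exact (hGS _ h1.2.2.2 _ hg hne).2 (le_antisymm h2 h3)
  have hRbox : ∀ s ∈ R, (p.1 < s.1 ∧ s.1 < N.1) ∧ (M.2 < s.2 ∧ s.2 < T.2) := by
    intro s hs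
    have h := (hmem s).mp hs
    exact ⟨⟨hp s h.2.2.2, hN' s h.2.2.2 h.2.1⟩, hM' s h.2.2.2 h.2.2.1, hT' s h.2.2.2 h.1⟩
  have hbox : ∀ e ∈ d.edges, ∀ z : Pt, e.on z →
      (p.1 < z.1 ∧ z.1 < N.1) ∧ (M.2 < z.2 ∧ z.2 < T.2) :=
    fun e he z hz => U3e_box hOB hEE hdpts he hz hRbox
  -- numerical facts
  have pM := hp M hM
  have pN := hp N hN
  have pT := hp T hT
  have pg := hp g hg
  have MN1 := hN' M hM hMN
  have TN1 := hN' T hT hNT.symm
  have gN1 := hN' g hg hgN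
  have MN2 := hM' N hN hMN.symm
  have MT2 := hM' T hT hMT.symm
  have Mg2 := hM' g hg hgM
  have NT2 := hT' N hN hNT
  have gT2 := hT' g hg hgT
  have A1 : Att N false (.un t) (insert T R) (.un T true d) := by
    refine hAU N T false true t R d hd (fun h => ((hmem T).mp h).1 rfl) ?_
    intro e he z hz1 hz2
    rw [U3e_on_false, Set.mem_uIcc, Set.mem_uIcc] at hz1
    simp only [att, List.mem_cons] at he
    rcases he with rfl | he
    · rw [U3e_on_true, Set.mem_uIcc, Set.mem_uIcc, hroot] at hz2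
      have hz : z = T := by
        apply Prod.ext
        · rcases hz1 with ⟨h1, h2 | h2⟩ | ⟨h1, h2 | h2⟩ <;>
          rcases hz2 with ⟨h3, h4 | h4⟩ | ⟨h3, h4 | h4⟩ <;> linarith [h2.1, h2.2, h4.1, h4.2]
        · rcases hz1 with ⟨h1, h2 | h2⟩ | ⟨h1, h2 | h2⟩ <;>
          rcases hz2 with ⟨h3, h4 | h4⟩ | ⟨h3, h4 | h4⟩ <;> linarith [h2.1, h2.2, h4.1, h4.2]
      exact ⟨Or.inr hz, Or.inl hz⟩
    · have hb := hbox e he z hz2
      exfalso
      rcases hz1 with ⟨h1, h2⟩ | ⟨h1, h2⟩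
      · linarith [hb.1.2]
      · linarith [hb.2.2]
  have A2 : Att M true (.un (.un t)) (insert N (insert T R)) (.un N false (.un T true d)) := by
    refine hAU M N true false (.un t) (insert T R) (.un T true d) A1 ?_ ?_
    · intro h
      rcases Finset.mem_insert.mp h with h | h
      · exact hNT h
      · exact ((hmem N).mp h).2.1 rfl
    intro e he z hz1 hz2
    rw [U3e_on_true, Set.mem_uIcc, Set.mem_uIcc] at hz1
    have hl : att N false (.un T true d) = ⟨N, T, false⟩ :: ⟨T, d.root, true⟩ :: d.edges := rfl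
    rw [hl] at he
    simp only [List.mem_cons] at he
    rcases he with rfl | rfl | he
    · rw [U3e_on_false, Set.mem_uIcc, Set.mem_uIcc] at hz2
      have hz : z = N := by
        apply Prod.ext
        · rcases hz1 with ⟨h1, h2 | h2⟩ | ⟨h1, h2 | h2⟩ <;>
          rcases hz2 with ⟨h3, h4 | h4⟩ | ⟨h3, h4 | h4⟩ <;> linarith [h2.1, h2.2, h4.1, h4.2]
        · rcases hz1 with ⟨h1, h2 | h2⟩ | ⟨h1, h2 | h2⟩ <;>
          rcases hz2 with ⟨h3, h4 | h4⟩ | ⟨h3, h4 | h4⟩ <;> linarith [h2.1, h2.2, h4.1, h4.2]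
      exact ⟨Or.inr hz, Or.inl hz⟩
    · rw [U3e_on_true, Set.mem_uIcc, Set.mem_uIcc, hroot] at hz2
      exfalso
      rcases hz1 with ⟨h1, h2 | h2⟩ | ⟨h1, h2 | h2⟩ <;>
          rcases hz2 with ⟨h3, h4 | h4⟩ | ⟨h3, h4 | h4⟩ <;> linarith [h2.1, h2.2, h4.1, h4.2]
    · have hb := hbox e he z hz2
      exfalso
      rcases hz1 with ⟨h1, h2⟩ | ⟨h1, h2⟩
      · linarith [hb.2.1]
      · linarith [hb.1.2]
  have A3 : Att p false (.un (.un (.un t))) (insert M (insert N (insert T R)))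
      (.un M true (.un N false (.un T true d))) := by
    refine hAU p M false true (.un (.un t)) (insert N (insert T R)) _ A2 ?_ ?_
    · intro h
      rcases Finset.mem_insert.mp h with h | h
      · exact hMN h
      rcases Finset.mem_insert.mp h with h | h
      · exact hMT h
      · exact ((hmem M).mp h).2.2.1 rfl
    intro e he z hz1 hz2
    rw [U3e_on_false, Set.mem_uIcc, Set.mem_uIcc] at hz1
    have hl : att M true (.un N false (.un T true d)) =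
        ⟨M, N, true⟩ :: ⟨N, T, false⟩ :: ⟨T, d.root, true⟩ :: d.edges := rfl
    rw [hl] at he
    simp only [List.mem_cons] at he
    rcases he with rfl | rfl | rfl | he
    · rw [U3e_on_true, Set.mem_uIcc, Set.mem_uIcc] at hz2
      have hz : z = M := by
        apply Prod.ext
        · rcases hz1 with ⟨h1, h2 | h2⟩ | ⟨h1, h2 | h2⟩ <;>
          rcases hz2 with ⟨h3, h4 | h4⟩ | ⟨h3, h4 | h4⟩ <;> linarith [h2.1, h2.2, h4.1, h4.2]
        · rcases hz1 with ⟨h1, h2 | h2⟩ | ⟨h1, h2 | h2⟩ <;>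
          rcases hz2 with ⟨h3, h4 | h4⟩ | ⟨h3, h4 | h4⟩ <;> linarith [h2.1, h2.2, h4.1, h4.2]
      exact ⟨Or.inr hz, Or.inl hz⟩
    · rw [U3e_on_false, Set.mem_uIcc, Set.mem_uIcc] at hz2
      exfalso
      rcases hz1 with ⟨h1, h2 | h2⟩ | ⟨h1, h2 | h2⟩ <;>
          rcases hz2 with ⟨h3, h4 | h4⟩ | ⟨h3, h4 | h4⟩ <;> linarith [h2.1, h2.2, h4.1, h4.2]
    · rw [U3e_on_true, Set.mem_uIcc, Set.mem_uIcc, hroot] at hz2
      exfalso
      rcases hz1 with ⟨h1, h2 | h2⟩ | ⟨h1, h2 | h2⟩ <;>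
          rcases hz2 with ⟨h3, h4 | h4⟩ | ⟨h3, h4 | h4⟩ <;> linarith [h2.1, h2.2, h4.1, h4.2]
    · have hb := hbox e he z hz2
      exfalso
      rcases hz1 with ⟨h1, h2⟩ | ⟨h1, h2⟩
      · linarith [hb.1.1]
      · linarith [hb.2.1]
  rw [hSR] at A3
  exact ⟨_, false, A3, Or.inr hMp⟩

end LSH
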